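import Mathlib

set_option autoImplicit false

namespace Pool.Agent.Results.MP_a8335c_lc.Upper

open Set Metric

structure Inst (d : ℕ) (R ρ M : ℝ) where
  f : (Fin d → ℝ) → EReal
  C : Set (Fin d → ℝ)
  f_ne : ∀ x, f x ≠ ⊥
  f_cvx : Convex ℝ {p : (Fin d → ℝ) × ℝ | f p.1 ≤ p.2}
  C_cl : IsClosed C
  C_cvx : Convex ℝ C
  box : ∀ y ∈ C, f y ≠ ⊤ → ‖y‖ ≤ R
  ball : (∃ y ∈ C, f y ≠ ⊤ ∧ ∀ y' ∈ C, f y ≤ f y') → ∃ c, closedBall c ρ ⊆ C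
  lip : ∀ x y, ‖x‖ ≤ R → ‖y‖ ≤ R → f x ≤ f y + (M * ‖x - y‖ : ℝ)

structure Chart (d : ℕ) (R ρ M : ℝ) where
  sep : (Fin d → ℝ) → Set (Fin d → ℝ) → Fin d → ℝ
  sub : (Fin d → ℝ) → ((Fin d → ℝ) → EReal) → EReal × (Fin d → ℝ)
  sep_in : ∀ (I : Inst d R ρ M) z, ‖z‖ ≤ R → z ∈ I.C → sep z I.C = 0
  sep_out : ∀ (I : Inst d R ρ M) z, ‖z‖ ≤ R → z ∉ I.C →
    sep z I.C ⬝ᵥ sep z I.C = 1 ∧ ∀ y ∈ I.C, sep z I.C ⬝ᵥ y < sep z I.C ⬝ᵥ z
  sub_val : ∀ (I : Inst d R ρ M) z, ‖z‖ ≤ R → (sub z I.f).1 = I.f z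
  sub_fin : ∀ (I : Inst d R ρ M) z, ‖z‖ ≤ R → I.f z ≠ ⊤ →
    ∀ y, I.f z + ((sub z I.f).2 ⬝ᵥ (y - z) : ℝ) ≤ I.f y
  sub_top : ∀ (I : Inst d R ρ M) z, ‖z‖ ≤ R → I.f z = ⊤ →
    (sub z I.f).2 ≠ 0 ∧ ∀ y, I.f y ≠ ⊤ → (sub z I.f).2 ⬝ᵥ y ≤ (sub z I.f).2 ⬝ᵥ z

def Query (d : ℕ) (R : ℝ) : Type :=
  {z : Fin d → ℝ // ‖z‖ ≤ R} × (((Fin d → ℝ) → Bool) ⊕ (EReal × (Fin d → ℝ) → Bool))

variable {d : ℕ} {R ρ M : ℝ}

def ans (G : Chart d R ρ M) (I : Inst d R ρ M) (q : Query d R) : Bool :=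
  q.2.elim (fun h => h (G.sep q.1 I.C)) fun h => h (G.sub q.1 I.f)

def hist (G : Chart d R ρ M) (D : List (Query d R × Bool) → Query d R) (I : Inst d R ρ M) :
    ℕ → List (Query d R × Bool)
  | 0 => []
  | k + 1 => hist G D I k ++ [(D (hist G D I k), ans G I (D (hist G D I k)))]

def Solved (ε : ℝ) (S : Set (Inst d R ρ M)) : Prop :=
  (∀ I ∈ S, ∀ y ∈ I.C, I.f y = ⊤) ∨
    ∃ y, ∀ I ∈ S, y ∈ I.C ∧ I.f y ≠ ⊤ ∧ ∀ y' ∈ I.C, I.f y ≤ I.f y' + ε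

noncomputable def icomp (ε : ℝ) (G : Chart d R ρ M) : ℕ∞ :=
  ⨅ D, ⨆ I, ⨅ (k : ℕ) (_ : Solved ε {J | hist G D J k = hist G D I k}), k

def Solv (ε : ℝ) (G : Chart d R ρ M) : ℕ → Set (Inst d R ρ M) → Prop
  | 0, S => Solved ε S
  | k + 1, S => ∃ q, ∀ b, Solv ε G k {I ∈ S | ans G I q = b}

variable {ε : ℝ} {G : Chart d R ρ M}

theorem Solv.mono {k : ℕ} {S T : Set (Inst d R ρ M)} (h : Solv ε G k T) (s : S ⊆ T) :
    Solv ε G k S := by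
  induction k generalizing S T with
  | zero => exact Or.imp (fun h I a => h I (s a)) (Exists.imp fun y h I a => h I (s a)) h
  | succ k ih =>
    obtain ⟨q, h⟩ := h
    exact ⟨q, fun b => ih (h b) fun I a => ⟨s a.1, a.2⟩⟩

theorem hist_succ (D : List (Query d R × Bool) → Query d R) (I : Inst d R ρ M) (k : ℕ) :
    hist G D I (k + 1) = (D [], ans G I (D [])) ::
      hist G (fun l => D ((D [], ans G I (D [])) :: l)) I k := by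
  induction k with
  | zero => rfl
  | succ k ih => rw [hist, ih]; rfl

theorem Solv.strat (q0 : Query d R) {k : ℕ} {S : Set (Inst d R ρ M)} (h : Solv ε G k S) :
    ∃ D, ∀ I, Solved ε {J ∈ S | hist G D J k = hist G D I k} := by
  induction k generalizing S with
  | zero => exact ⟨fun _ => q0, fun I => h.mono (k := 0) fun _ => And.left⟩
  | succ k ih =>
    obtain ⟨q, h⟩ := h
    choose D hD using fun b => ih (h b)
    refine ⟨fun l => l.casesOn q fun p l => D p.2 l, fun I =>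
      Solv.mono (k := 0) (G := G) (hD (ans G I q) I) fun J ⟨a, b⟩ => ?_⟩
    simp only [hist_succ, List.cons.injEq, Prod.mk.injEq, true_and] at b
    exact ⟨⟨a, b.1⟩, b.1 ▸ b.2⟩

variable {G : Chart 1 1 ε 1}

open Classical in
theorem q_sep {k : ℕ} {S : Set (Inst 1 1 ε 1)} {z : ℝ} (hz : |z| ≤ 1) (p : (Fin 1 → ℝ) → Prop)
    (h1 : Solv ε G k {I ∈ S | p (G.sep (fun _ => z) I.C)})
    (h2 : Solv ε G k {I ∈ S | ¬p (G.sep (fun _ => z) I.C)}) : Solv ε G (k + 1) S :=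
  ⟨(⟨fun _ => z, by simpa⟩, .inl fun a => decide (p a)), fun b => by
    cases b <;> simpa [ans]⟩

open Classical in
theorem q_sub {k : ℕ} {S : Set (Inst 1 1 ε 1)} {z : ℝ} (hz : |z| ≤ 1)
    (p : EReal × (Fin 1 → ℝ) → Prop) (h1 : Solv ε G k {I ∈ S | p (G.sub (fun _ => z) I.f)})
    (h2 : Solv ε G k {I ∈ S | ¬p (G.sub (fun _ => z) I.f)}) : Solv ε G (k + 1) S :=
  ⟨(⟨fun _ => z, by simpa⟩, .inr fun a => decide (p a)), fun b => by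
    cases b <;> simpa [ans]⟩

theorem q_mem {k : ℕ} {S : Set (Inst 1 1 ε 1)} {z : ℝ} (hz : |z| ≤ 1)
    (h1 : Solv ε G k {I ∈ S | (fun _ => z) ∈ I.C})
    (h2 : Solv ε G k {I ∈ S | (fun _ => z) ∉ I.C}) : Solv ε G (k + 1) S :=
  q_sep hz (· = 0) (h1.mono fun I h => ⟨h.1, by_contra fun k => by
    simpa [h.2] using (G.sep_out I _ (by simpa) k).1⟩)
    (h2.mono fun I h => ⟨h.1, mt (G.sep_in I _ (by simpa)) h.2⟩)

def Opt (I : Inst 1 1 ε 1) (y : Fin 1 → ℝ) : Prop := y ∈ I.C ∧ I.f y ≠ ⊤ ∧ ∀ y' ∈ I.C, I.f y ≤ I.f y'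

def W (a b : ℝ) : Set (Inst 1 1 ε 1) := {I | (∃ y ∈ I.C, I.f y ≠ ⊤) →
  (∃ y, Opt I y ∧ y 0 ∈ Icc a b) ∧
    ((fun _ => a) ∈ I.C ∨ (fun _ => b) ∈ I.C ∨ ∀ y ∈ I.C, y 0 ∈ Ioo a b)}

theorem fin_of (I : Inst 1 1 ε 1) {x y : Fin 1 → ℝ} (hx : ‖x‖ ≤ 1) (hy : ‖y‖ ≤ 1)
    (h : I.f y ≠ ⊤) : I.f x ≠ ⊤ :=
  ((I.lip x y hx hy).trans_lt (EReal.add_lt_top h (EReal.coe_ne_top _))).ne

theorem nrm (y : Fin 1 → ℝ) : ‖y‖ = |y 0| := by simp [Pi.norm_def]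

theorem W_init (I : Inst 1 1 ε 1) : I ∈ W (-1) 1 := fun ⟨y, y1, y2⟩ => by
  have k : ∀ x ∈ I.C ∩ closedBall 0 1, I.f x = (I.f x).toReal := fun x hx => (EReal.coe_toReal
    (fin_of I (by simpa using hx.2) (I.box y y1 y2) y2) (I.f_ne x)).symm
  obtain ⟨x, x1, x2⟩ := ((isCompact_closedBall 0 1).inter_left I.C_cl).exists_isMinOn
    ⟨y, y1, by simpa using I.box y y1 y2⟩ (LipschitzOnWith.of_le_add_mul' (f := fun x =>
      (I.f x).toReal) 1 fun x hx z hz => by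
        have := I.lip x z (by simpa using hx.2) (by simpa using hz.2)
        rw [k x hx, k z hz] at this
        exact_mod_cast this).continuousOn
  refine ⟨⟨x, ⟨x1.1, k x x1 ▸ EReal.coe_ne_top _, fun z hz => ?_⟩,
    abs_le.1 (by simpa [nrm] using x1.2)⟩, ?_⟩
  · rcases eq_or_ne (I.f z) ⊤ with e | e
    · simp [e]
    have : z ∈ I.C ∩ closedBall 0 1 := ⟨hz, by simpa using I.box z hz e⟩
    rw [k x x1, k z this]
    exact_mod_cast x2 this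
  · by_contra! h
    obtain ⟨h1, h2, z, z1, z2⟩ := h
    have o := (I.C_cvx.linear_preimage (LinearMap.pi fun _ => LinearMap.id)).ordConnected
    have e : ∀ x ∈ I.C, (fun _ => x 0) ∈ I.C :=
      fun x hx => (funext fun i => congrArg x (Fin.eq_zero i).symm : (fun _ => x 0) = x).symm ▸ hx
    have := abs_le.1 (nrm y ▸ I.box y y1 y2)
    rcases le_or_gt (z 0) (-1) with l | l
    · exact h1 (o.out (e z z1) (e y y1) ⟨l, this.1⟩)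
    · exact h2 (o.out (e y y1) (e z z1) ⟨this.2, not_lt.1 fun l' => z2 ⟨l, l'⟩⟩)

theorem W_solv (hε : 0 < ε) (n : ℕ) {a b : ℝ} (ha : -1 ≤ a) (hab : a ≤ b) (hb : b ≤ 1)
    (h : b - a ≤ 2 ^ n * ε) : Solv ε G (2 * n + 3) (W a b) := by
  induction n generalizing a b with
  | zero =>
    have k : ∀ c ∈ Icc a b, ∀ I ∈ W (ε := ε) a b, ¬(G.sub (fun _ => 0) I.f).1 = ⊤ →
        (fun _ => c) ∈ I.C → (fun _ => c) ∈ I.C ∧ I.f (fun _ => c) ≠ ⊤ ∧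
          ∀ y' ∈ I.C, I.f (fun _ => c) ≤ I.f y' + ε := fun c hc I h1 h2 h3 => by
      have c1 : ‖fun _ : Fin 1 => c‖ ≤ 1 := nrm _ ▸ abs_le.2 ⟨ha.trans hc.1, hc.2.trans hb⟩
      have c2 := fin_of I c1 (by simp) (G.sub_val I (fun _ => 0) (by simp) ▸ h2)
      obtain ⟨⟨y, y1, y2⟩, -⟩ := h1 ⟨_, h3, c2⟩
      refine ⟨h3, c2, fun z hz => (I.lip _ y c1 (I.box y y1.1 y1.2.1)).trans (add_le_add
        (y1.2.2 z hz) (EReal.coe_le_coe_iff.2 ?_))⟩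
      rw [one_mul, nrm]
      exact (Real.dist_le_of_mem_Icc hc y2).trans (by simpa using h)
    have a1 : |a| ≤ 1 := abs_le.2 ⟨ha, hab.trans hb⟩
    refine q_sub (z := 0) (by simp) (·.1 = ⊤) (q_mem a1 (q_mem a1 ?_ ?_) (q_mem a1 ?_ ?_))
      (q_mem a1 (q_mem a1 ?_ ?_) (q_mem (abs_le.2 ⟨ha.trans hab, hb⟩) ?_ ?_))
    iterate 4
      exact Or.inl fun I h y hy => by_contra fun k => fin_of I (x := fun _ => 0) (by simp)
        (I.box y hy k) k ((G.sub_val I (fun _ => 0) (by simp)).symm.trans h.1.1.2)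
    iterate 2
      exact Or.inr ⟨_, fun I h => k a ⟨le_rfl, hab⟩ I h.1.1.1 h.1.1.2 h.1.2⟩
    · exact Or.inr ⟨_, fun I h => k b ⟨hab, le_rfl⟩ I h.1.1.1 h.1.1.2 h.2⟩
    · refine Or.inl fun I ⟨⟨⟨h1, _⟩, h2⟩, h3⟩ y hy => by_contra fun k => ?_
      obtain ⟨⟨z, z1, -⟩, h4⟩ := h1 ⟨y, hy, k⟩
      obtain ⟨c, hc⟩ := I.ball ⟨z, z1⟩
      have h5 := (h4.resolve_left h2).resolve_left h3
      have b1 := (h5 (c + fun _ => ε) (hc (by simp [abs_of_pos hε]))).2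
      have b2 := (h5 (c - fun _ => ε) (hc (by simp [abs_of_pos hε]))).1
      simp only [Pi.add_apply, Pi.sub_apply] at b1 b2
      linarith
  | succ n ih =>
    obtain ⟨z, z1, z2⟩ : ∃ z, z - a = (b - a) / 2 ∧ b - z = (b - a) / 2 :=
      ⟨(a + b) / 2, by ring, by ring⟩
    have a1 : a ≤ z := by linarith
    have a2 : z ≤ b := by linarith
    have a3 : |z| ≤ 1 := abs_le.2 ⟨ha.trans a1, a2.trans hb⟩
    have a4 : ‖fun _ : Fin 1 => z‖ ≤ 1 := nrm _ ▸ a3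
    rw [pow_succ] at h
    have l := ih ha a1 (a2.trans hb) (by linarith)
    have r := ih (ha.trans a1) a2 hb (by linarith)
    have k : ∀ I : Inst 1 1 ε 1, (fun _ => z) ∈ I.C → ∀ y, Opt I y →
        0 ≤ (G.sub (fun _ => z) I.f).2 0 * (y 0 - z) → Opt I fun _ => z := fun I h1 y h2 h3 => by
      have c := fin_of I a4 (I.box y h2.1 h2.2.1) h2.2.1
      refine ⟨h1, c, fun x hx => le_trans ?_ ((G.sub_fin I _ a4 c y).trans (h2.2.2 x hx))⟩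
      exact le_add_of_nonneg_right (EReal.coe_nonneg.2 (by simpa [dotProduct] using h3))
    refine q_mem a3 (q_sub a3 (0 ≤ ·.2 0) (l.mono ?_) (r.mono ?_))
      (q_sep a3 (0 ≤ · 0) (l.mono ?_) (r.mono ?_)) <;> rintro I ⟨⟨h1, h2⟩, h3⟩ f <;>
      obtain ⟨⟨y, y1, y2⟩, h4⟩ := h1 f
    · refine ⟨?_, Or.inr (Or.inl h2)⟩
      rcases le_total (y 0) z with e | e
      exacts [⟨y, y1, y2.1, e⟩, ⟨_, k I h2 y y1 (mul_nonneg h3 (sub_nonneg.2 e)), a1, le_rfl⟩]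
    · refine ⟨?_, Or.inl h2⟩
      rcases le_total (y 0) z with e | e
      exacts [⟨_, k I h2 y y1 (mul_nonneg_of_nonpos_of_nonpos (not_le.1 h3).le
        (sub_nonpos.2 e)), le_rfl, a2⟩, ⟨y, y1, e, y2.2⟩]
    · have s : ∀ x ∈ I.C, x 0 < z := fun x hx => lt_of_mul_lt_mul_left
        (by simpa [dotProduct] using (G.sep_out I _ a4 h2).2 x hx) h3
      exact ⟨⟨y, y1, y2.1, (s y y1.1).le⟩, h4.imp_right fun h => Or.inr (h.elim
        (fun h => absurd (s _ h) a2.not_gt) fun h x hx => ⟨(h x hx).1, s x hx⟩)⟩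
    · have s : ∀ x ∈ I.C, z < x 0 := fun x hx => lt_of_mul_lt_mul_of_nonpos_left
        (by simpa [dotProduct] using (G.sep_out I _ a4 h2).2 x hx) (not_le.1 h3).le
      exact ⟨⟨y, y1, (s y y1.1).le, y2.2⟩, Or.inr (h4.elim (fun h => absurd (s _ h) a1.not_gt)
        (Or.imp_right fun h x hx => ⟨s x hx, (h x hx).2⟩))⟩

theorem result (c : ℝ) (hc : 0 < c) : ∃ (d : ℕ) (R ρ M ε : ℝ),
    1 ≤ d ∧ 0 < R ∧ 0 < ρ ∧ 0 < M ∧ 0 < ε ∧ 2 ≤ M * R / (ρ * ε) ∧ ρ ≤ 1 ∧ ρ ≤ R ∧ ε ≤ M * R ∧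
      ∀ G : Chart d R ρ M, ∃ k : ℕ, icomp ε G ≤ k ∧
        k < c * d ^ 2 * Real.log (M * R / (ρ * ε)) ^ 2 := by
  obtain ⟨n, hn⟩ := exists_nat_gt (7 / c + 1)
  have n1 : (1 : ℝ) < n := by linarith [div_pos (by norm_num : (0 : ℝ) < 7) hc]
  have e : (1 : ℝ) * 1 / (2⁻¹ ^ n * 2⁻¹ ^ n) = 2 ^ (2 * n) := by
    simp [two_mul, pow_add]
  have p : (2⁻¹ : ℝ) ^ n ≤ 1 := pow_le_one₀ (by norm_num) (by norm_num)
  refine ⟨1, 1, 2⁻¹ ^ n, 1, 2⁻¹ ^ n, le_rfl, one_pos, by positivity, one_pos, by positivity, ?_,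
    p, p, by simpa using p, fun G => ⟨2 * (n + 1) + 3, ?_, ?_⟩⟩
  · rw [e]
    exact le_self_pow₀ one_le_two (by have : 1 < n := by exact_mod_cast n1
                                      omega)
  · obtain ⟨D, hD⟩ := (W_solv (G := G) (by positivity) (n + 1) le_rfl (by norm_num) le_rfl
      (by rw [pow_succ', mul_assoc, ← mul_pow]; norm_num)).strat (⟨0, by simp⟩, .inl fun _ => true)
    exact (iInf_le _ D).trans (iSup_le fun I => iInf₂_le (2 * (n + 1) + 3)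
      (Solv.mono (k := 0) (G := G) (hD I) fun J h => ⟨W_init J, h⟩))
  · rw [e, Real.log_pow]
    have l := Real.log_two_gt_d9
    have h7 : 7 < c * n := by rw [← div_lt_iff₀' hc]; linarith
    have h8 : (n : ℝ) ≤ 2 * n * Real.log 2 := by nlinarith
    push_cast
    calc (2 * (n + 1) + 3 : ℝ) < c * n * n := by nlinarith
      _ ≤ _ := by rw [mul_assoc, ← sq, one_pow, mul_one]; gcongr

end Pool.Agent.Results.MP_a8335c_lc.Upper
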